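import Pool.Agent.R887.BezB
import Pool.Agent.R887.NefP

/-!
Klt pairs with nef log canonical divisor and a self-correspondence of large degree, ramified over the
boundary.
-/

set_option autoImplicit false

open FF Pool.Agent.W602.GT Pool.Agent.Y172 Pool.Agent.R887

/-- Let `(X, B)` be a projective (for instance klt) pair of dimension `n ≥ 1`, with generic point
`y`, such that `K_X + B` is nef; the coefficients of `B` are any rational numbers. Let `X ← X'' → X`
be a self-correspondence of the pair: a variety `X''` with a generically finite rational map `p` to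
`X` and a dominant rational map `f` to `X`, such that `f^* (K_X + B) ≤ p^* (K_X + B)` over the prime
divisors of `X`; this means that for all prime divisors `Q` of `X''` over a prime divisor `P'` of
`X`, with ramification index `e'`, and with image `P = f (Q)`, with ramification index `e`, the
number `e' (1 - B P')` is at most `e` times the log discrepancy of `(X, B)` along `P`. Thus `p` may be
ramified over the components of `B`, as for orbifold coverings. Suppose that the intersection number
of `n - 1` pull backs by `f` of hyperplane sections of `X` and one pull back by `p` of a hyperplane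
section of `X` is at most `c deg f`, where `c < 1`.

Then the numerical dimension of `K_X + B` is zero, that is, `K_X + B` is numerically trivial, and the
sections `η ≠ 0` of `m (K_X + B)` have no zeros, for all `m ≥ 1`, so that `K_X + B` is semiample if
it is effective. -/
theorem Pool.Agent.Results.MP_9a2ae6_ag.OrbifoldCorrespondences.result
    {K L : Type} [Field K] [Algebra ℂ K] [Field L] [Algebra ℂ L] {N n : ℕ}
    {y : Fin (N + 1) → K} (hy : NormalModel y) (hn : Algebra.trdeg ℂ K = n) (hn0 : 0 < n)
    {B : Place ℂ K → ℚ} (hB : {P | IsPrimeDivisor y P ∧ B P ≠ 0}.Finite) (hnef : LogNef y n B)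
    (φ ψ : K →ₐ[ℂ] L) (hψ : FiniteDimensional ψ.fieldRange L)
    (hlog : LogPullBackLe φ ψ y n B y B) {c : ℝ} (hc : MultiDegreeLe φ ψ y y (n - 1) 1 c)
    (hc1 : c < 1) :
    NumDimLt y n B 1 ∧ ∀ m : ℕ, 1 ≤ m → ∀ η : (Fin n → Derivation ℂ K K) → K,
      IsSection y n m (m • B) η → η ≠ 0 → ∀ P, IsPrimeDivisor y P → OrdEq P η (-(m * B P)) := by
  have h1 : NumDimLt y n B 1 := orb_gap hy hn hn0 hB φ ψ hψ hlog hc hc1
  exact ⟨h1, fun m hm η hη hη0 P hP => nef_trivialP hy hn hn0 h1 hnef hm hη hη0 P hP⟩
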