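import Pool.Agent.R800.UB.Log

/-!
# Abundance for pairs on quotients of complex tori, with an exponent depending only on the dimension

Let `X = V / Γ` be the quotient of a complex torus of dimension `n`, projective or not, by any finite
group, which may contain reflections, and let `B` be an effective divisor on `X` such that `m B` is
integral. The theorem says that there is a number `M` which depends only on `n`, not on `X`, `B` and
`m`, such that `M m (K_X + B)` is Cartier and has no base points if `K_X + B` is nef.

The proof: the group of the linear parts of `Γ` has an order which divides the order of `GL_2n(F_3)` by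
Minkowski's lemma. The character given by `m (K_X + B)` on the lattice vectors in the kernel of the Chern
form is killed by this order, because a meromorphic section has its poles only on mirrors (as in the
starting result `TorusQuotientPairs`); so a bounded multiple is the pullback of an ample line bundle on
the base. Finally, bounded powers of ample line bundles on torus quotients are generated by global
sections: an invariant theta construction gives one such line bundle with the Chern form of a bounded
power, and each flat line bundle is, up to a bounded power, the difference of a translate of it by a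
vector which is fixed by the linear parts, and of itself.

`WeilClass` (Weil divisors, as factors of automorphy of `Γ`) and `HasChernForm` are defined in
`Pool.Agent.R800.UA.WeilDefs`; `IsLogPluri`, `IsSec`, `Free` and `IsPullBack` in
`Pool.Agent.R800.UB.LogDefs`; `IsTorusQuotient` in `Pool.Agent.W594.SYZ.Defs2`; `IsNefForm` and
`IsPositiveForm` in `Pool.Agent.W594.SYZ.TQDefs`; `IsFibration` in `Pool.Agent.TH735.AQ.Defs`;
`IsRamification` in `Pool.Agent.TH735.AQ.MirDefs`.
-/

set_option autoImplicit false

namespace Pool.Agent.Results.MP_9a2ae6_ag.UniformLogAbundance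

open Pool.Agent.W594.SYZ2 Pool.Agent.TH735.AQ Pool.Agent.R800.UA Pool.Agent.R800.UB

/-- For every `n` there is an explicit `M ≥ 1` such that for every quotient `X = V / Γ` of a complex torus
of dimension `n` by a finite group, every effective divisor `B` and every `m` for which `m B` is integral,
with `D = m (K_X + B)` and the Chern form `H` of `D`: `K_X + B` is nef if and only if `M D` is Cartier and
base point free, and if and only if some positive multiple of `D` has a nonzero section. In this case
`M D` is the pullback of an ample base point free divisor under a fibration `X → Z`, given by a linear map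
whose kernel is the kernel of `H`. -/
theorem result : ∀ n : ℕ, ∃ M : ℕ, M = 4 * Nat.card (GL (Fin (2 * n)) (ZMod 3)) ^ 8 ∧ 1 ≤ M ∧
    ∀ (V : Type*) [NormedAddCommGroup V] [NormedSpace ℂ V] [FiniteDimensional ℂ V]
      (Γ : Subgroup (V ≃ᵃ[ℂ] V)), Module.finrank ℂ V = n → IsTorusQuotient Γ →
      ∀ (ρ β : V → ℂ) (m : ℕ), IsRamification Γ ρ → Differentiable ℂ β → (∃ v, β v ≠ 0) →
        ∀ (D : WeilClass Γ) (H : V → V → ℂ), IsLogPluri D m ρ β → D.HasChernForm H →
          (IsNefForm H ↔ Free D M) ∧
          (IsNefForm H ↔ ∃ j : ℕ, 1 ≤ j ∧ ∃ s, IsSec D j s ∧ ∃ v, s v ≠ 0) ∧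
          (IsNefForm H → ∃ (k : ℕ) (Δ : Subgroup ((Fin k → ℂ) ≃ᵃ[ℂ] (Fin k → ℂ)))
            (π : V →ₗ[ℂ] (Fin k → ℂ)), (∀ v, π v = 0 ↔ ∀ w, H v w = 0) ∧
              IsFibration Γ Δ π ∧ IsPullBack D M Δ π) := by
  intro n
  have hpos : 1 ≤ 4 * gl3 n ^ 8 := by
    have := gl3_pos n
    have h1 : 0 < 4 * gl3 n ^ 8 := by positivity
    exact h1
  refine ⟨4 * gl3 n ^ 8, rfl, hpos, fun V _ _ _ Γ hd hΓ ρ β m hρ hβ hβ0 D H hL hc => ?_⟩
  have h1 : IsNefForm H → Free D (4 * gl3 n ^ 8) := by
    intro hn
    obtain ⟨k, Δ, π, -, h2, h3⟩ := fib_log hΓ hd hc hρ hβ hβ0 hL hn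
    exact bpf_of_pull h2 h3
  have h2 : Free D (4 * gl3 n ^ 8) → ∃ j : ℕ, 1 ≤ j ∧ ∃ s, IsSec D j s ∧ ∃ v, s v ≠ 0 := by
    intro h
    obtain ⟨s, hs, hsv⟩ := h.2 0
    exact ⟨_, hpos, s, hs, 0, hsv⟩
  have h3 : (∃ j : ℕ, 1 ≤ j ∧ ∃ s, IsSec D j s ∧ ∃ v, s v ≠ 0) → IsNefForm H :=
    fun ⟨_, hj, _, hs, h0⟩ => nef_of_eff hΓ hc hj hs h0
  exact ⟨⟨h1, fun h => h3 (h2 h)⟩, ⟨fun h => h2 (h1 h), h3⟩,
    fun hn => fib_log hΓ hd hc hρ hβ hβ0 hL hn⟩

end Pool.Agent.Results.MP_9a2ae6_ag.UniformLogAbundance
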